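import Pool.Agent.H21.Triple

namespace Pool.Agent.Results.MP_4722b0_al.NoQ

open Pool.Agent.H21.Triple

lemma t1 : DiagTriTri (Matrix.toLin' (!![2, 0, 0; 0, 0, 0; 0, 0, -2] : Matrix _ _ ℂ)) (Matrix.toLin' !![0, 2, 0; 1, 0, 1; 0, 2, 0]) (Matrix.toLin' !![6, 8, 0; 4, 0, 4; 0, 8, -6]) :=
  diagTriTri_of !![1, 0, 0; 0, 1, 0; 0, 0, 1] !![1, 0, 0; 0, 1, 0; 0, 0, 1] _ _ _
      (by ext i j; fin_cases i <;> fin_cases j <;> simp [Matrix.mul_apply, Fin.sum_univ_succ] <;> norm_num)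
      (by
        rw [show (!![1, 0, 0; 0, 1, 0; 0, 0, 1] * !![2, 0, 0; 0, 0, 0; 0, 0, -2] * !![1, 0, 0; 0, 1, 0; 0, 0, 1] : Matrix _ _ ℂ) = !![2, 0, 0; 0, 0, 0; 0, 0, -2] by
          ext i j; fin_cases i <;> fin_cases j <;> simp [Matrix.mul_apply, Fin.sum_univ_succ] <;> norm_num]
        apply isDiag3 <;> norm_num)
      (by
        rw [show (!![1, 0, 0; 0, 1, 0; 0, 0, 1] * !![0, 2, 0; 1, 0, 1; 0, 2, 0] * !![1, 0, 0; 0, 1, 0; 0, 0, 1] : Matrix _ _ ℂ) = !![0, 2, 0; 1, 0, 1; 0, 2, 0] by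
          ext i j; fin_cases i <;> fin_cases j <;> simp [Matrix.mul_apply, Fin.sum_univ_succ] <;> norm_num]
        apply irrTri3 <;> norm_num)
      (by
        rw [show (!![1, 0, 0; 0, 1, 0; 0, 0, 1] * !![6, 8, 0; 4, 0, 4; 0, 8, -6] * !![1, 0, 0; 0, 1, 0; 0, 0, 1] : Matrix _ _ ℂ) = !![6, 8, 0; 4, 0, 4; 0, 8, -6] by
          ext i j; fin_cases i <;> fin_cases j <;> simp [Matrix.mul_apply, Fin.sum_univ_succ] <;> norm_num]
        apply irrTri3 <;> norm_num)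

lemma t2 : DiagTriTri (Matrix.toLin' (!![0, 2, 0; 1, 0, 1; 0, 2, 0] : Matrix _ _ ℂ)) (Matrix.toLin' !![2, 0, 0; 0, 0, 0; 0, 0, -2]) (Matrix.toLin' !![6, 8, 0; 4, 0, 4; 0, 8, -6]) :=
  diagTriTri_of !![1, 1, 1; 1, 0, -1; 1, -1, 1] !![1/4, 1/2, 1/4; 1/2, 0, -1/2; 1/4, -1/2, 1/4] _ _ _
      (by ext i j; fin_cases i <;> fin_cases j <;> simp [Matrix.mul_apply, Fin.sum_univ_succ] <;> norm_num)
      (by
        rw [show (!![1/4, 1/2, 1/4; 1/2, 0, -1/2; 1/4, -1/2, 1/4] * !![0, 2, 0; 1, 0, 1; 0, 2, 0] * !![1, 1, 1; 1, 0, -1; 1, -1, 1] : Matrix _ _ ℂ) = !![2, 0, 0; 0, 0, 0; 0, 0, -2] by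
          ext i j; fin_cases i <;> fin_cases j <;> simp [Matrix.mul_apply, Fin.sum_univ_succ] <;> norm_num]
        apply isDiag3 <;> norm_num)
      (by
        rw [show (!![1/4, 1/2, 1/4; 1/2, 0, -1/2; 1/4, -1/2, 1/4] * !![2, 0, 0; 0, 0, 0; 0, 0, -2] * !![1, 1, 1; 1, 0, -1; 1, -1, 1] : Matrix _ _ ℂ) = !![0, 1, 0; 2, 0, 2; 0, 1, 0] by
          ext i j; fin_cases i <;> fin_cases j <;> simp [Matrix.mul_apply, Fin.sum_univ_succ] <;> norm_num]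
        apply irrTri3 <;> norm_num)
      (by
        rw [show (!![1/4, 1/2, 1/4; 1/2, 0, -1/2; 1/4, -1/2, 1/4] * !![6, 8, 0; 4, 0, 4; 0, 8, -6] * !![1, 1, 1; 1, 0, -1; 1, -1, 1] : Matrix _ _ ℂ) = !![8, 3, 0; 6, 0, 6; 0, 3, -8] by
          ext i j; fin_cases i <;> fin_cases j <;> simp [Matrix.mul_apply, Fin.sum_univ_succ] <;> norm_num]
        apply irrTri3 <;> norm_num)

lemma t3 : DiagTriTri (Matrix.toLin' (!![6, 8, 0; 4, 0, 4; 0, 8, -6] : Matrix _ _ ℂ)) (Matrix.toLin' !![2, 0, 0; 0, 0, 0; 0, 0, -2]) (Matrix.toLin' !![0, 2, 0; 1, 0, 1; 0, 2, 0]) :=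
  diagTriTri_of !![4, 4, 1; 2, -3, -2; 1, -4, 4] !![4/25, 4/25, 1/25; 2/25, -3/25, -2/25; 1/25, -4/25, 4/25] _ _ _
      (by ext i j; fin_cases i <;> fin_cases j <;> simp [Matrix.mul_apply, Fin.sum_univ_succ] <;> norm_num)
      (by
        rw [show (!![4/25, 4/25, 1/25; 2/25, -3/25, -2/25; 1/25, -4/25, 4/25] * !![6, 8, 0; 4, 0, 4; 0, 8, -6] * !![4, 4, 1; 2, -3, -2; 1, -4, 4] : Matrix _ _ ℂ) = !![10, 0, 0; 0, 0, 0; 0, 0, -10] by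
          ext i j; fin_cases i <;> fin_cases j <;> simp [Matrix.mul_apply, Fin.sum_univ_succ] <;> norm_num]
        apply isDiag3 <;> norm_num)
      (by
        rw [show (!![4/25, 4/25, 1/25; 2/25, -3/25, -2/25; 1/25, -4/25, 4/25] * !![2, 0, 0; 0, 0, 0; 0, 0, -2] * !![4, 4, 1; 2, -3, -2; 1, -4, 4] : Matrix _ _ ℂ) = !![6/5, 8/5, 0; 4/5, 0, 4/5; 0, 8/5, -6/5] by
          ext i j; fin_cases i <;> fin_cases j <;> simp [Matrix.mul_apply, Fin.sum_univ_succ] <;> norm_num]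
        apply irrTri3 <;> norm_num)
      (by
        rw [show (!![4/25, 4/25, 1/25; 2/25, -3/25, -2/25; 1/25, -4/25, 4/25] * !![0, 2, 0; 1, 0, 1; 0, 2, 0] * !![4, 4, 1; 2, -3, -2; 1, -4, 4] : Matrix _ _ ℂ) = !![8/5, -6/5, 0; -3/5, 0, -3/5; 0, -6/5, -8/5] by
          ext i j; fin_cases i <;> fin_cases j <;> simp [Matrix.mul_apply, Fin.sum_univ_succ] <;> norm_num]
        apply irrTri3 <;> norm_num)

theorem result : ∃ A B C : Module.End ℂ (Fin 3 → ℂ), IsLeonardTriple A B C ∧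
    ∀ q : ℂ, A * B - q • (B * A) ∉ Submodule.span ℂ {1, A, B, C} := by
  refine ⟨_, _, _, ⟨t1, t2, t3⟩, fun q h => ?_⟩
  simp only [Submodule.mem_span_insert, Submodule.mem_span_singleton] at h
  obtain ⟨a, _, ⟨b, _, ⟨c, _, ⟨d, rfl⟩, rfl⟩, rfl⟩, h⟩ := h
  have h0 := congrFun (LinearMap.congr_fun h ![1, 0, 0]) 1
  have h1 := congrFun (LinearMap.congr_fun h ![0, 0, 1]) 1
  have h2 := congrFun (LinearMap.congr_fun h ![0, 1, 0]) 0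
  simp [Matrix.mulVec, dotProduct, Fin.sum_univ_succ] at h0 h1 h2
  have : (4 : ℂ) = 0 := by linear_combination h2 - h0 - h1
  norm_num at this

end Pool.Agent.Results.MP_4722b0_al.NoQ
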